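import Pool.Agent.H84.ND.Targets2
import Pool.Agent.H61.SM.SAS

/-!
# Module SNG of board ndc_modules (MP_70ba79_ag): saturation on the curve, negative degree

The last part of the proof of `pf_SAS` (module SAS of helper61) does not use that the curve is
smooth.
-/

set_option autoImplicit false

namespace Pool.Agent.H90.ND

open MvPolynomial SC Pool.Agent.H27.LV Pool.Agent.H84.SM Pool.Agent.H84.ND Pool.Agent.H61.SM

/-- saturation on an irreducible curve, all degrees -/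
theorem sat (k L : Type) [Field k] [IsAlgClosed k] [CharZero k] [Field L] [Algebra k L]
    (G : MvPolynomial (Fin 3) k) (d : ℕ) (c : Fin 3 → L) (hI : Ird G d) (hgen : GenPt G c)
    (f : L) (r : ℤ) (D : ℕ) (hvar0 : ∀ l : Fin 3, c l ^ D * f ∈ SS (k := k) c (r + D)) :
    f ∈ SS (k := k) c r := by
  have hd := hI.two
  have hh := hI.hom
  have hirr := hI.irr
  have hvar : ∀ l : Fin 3, aeval c (X l ^ D : MvPolynomial (Fin 3) k) * f ∈
      SS (k := k) c (r + D) := by
    intro l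
    rw [map_pow, aeval_X]
    exact hvar0 l
  obtain ⟨t, ht⟩ := exists_pt hd hh hirr
  -- the ideal
  obtain ⟨I, hI⟩ : ∃ I : Ideal (MvPolynomial (Fin 3) k), ∀ p, p ∈ I ↔
      ∃ v : MvPolynomial (Fin 3) k, aeval c p * f = aeval c v := by
    refine ⟨{ carrier := {p | ∃ v : MvPolynomial (Fin 3) k, aeval c p * f = aeval c v}
              add_mem' := ?_
              zero_mem' := ⟨0, by rw [map_zero, zero_mul]⟩
              smul_mem' := ?_ }, fun p => Iff.rfl⟩
    · rintro p q ⟨v, hv⟩ ⟨w, hw⟩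
      exact ⟨v + w, by rw [map_add, map_add, add_mul, hv, hw]⟩
    · rintro p q ⟨v, hv⟩
      exact ⟨p * v, by rw [smul_eq_mul, map_mul, map_mul, mul_assoc, hv]⟩
  have hXI : ∀ l : Fin 3, (X l ^ D : MvPolynomial (Fin 3) k) ∈ I := by
    intro l
    obtain ⟨v, -, -, hv⟩ := mem_SS (hvar l)
    exact (hI _).2 ⟨v, hv⟩
  have hlin : (X 1 - C t * X 2 : MvPolynomial (Fin 3) k) ^ (D + D) ∈ I := by
    rw [sub_eq_add_neg]
    refine I.add_pow_mem_of_pow_mem_of_le (hXI 1) (n := D) ?_ (by omega)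
    have h1 : (-(C t * X 2) : MvPolynomial (Fin 3) k) ^ D = (-C t) ^ D * X 2 ^ D := by
      rw [← mul_pow]
      ring
    rw [h1]
    exact I.mul_mem_left _ (hXI 2)
  obtain ⟨v, hv⟩ := (hI _).1 hlin
  obtain ⟨u, hu1, hu2, hu3⟩ := mem_SS (hvar 0)
  have hc0 : ∀ n : ℕ, aeval c (X 0 ^ n : MvPolynomial (Fin 3) k) ≠ 0 := by
    intro n
    rw [map_pow]
    exact pow_ne_zero n fun h => not_dvd_X hd hh 0 ((hgen _).1 h)
  have h1 : G ∣ (X 1 - C t * X 2) ^ (D + D) * u - X 0 ^ D * v := by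
    rw [← hgen, map_sub, map_mul, map_mul, ← hu3, ← hv]
    ring
  obtain ⟨h, hh'⟩ := h1
  have h2 : X 0 ^ D ∣ (X 1 - C t * X 2) ^ (D + D) * u - G * h := ⟨v, by rw [← hh']; ring⟩
  obtain ⟨z, ⟨u1, hz⟩, -⟩ := reg_pow (X_ne_zero 0) (step ht (D + D)) D u h h2
  have hu4 : u = X 0 ^ D * u1 + G * z := by rw [← hz]; ring
  have hGc : aeval c G = 0 := (hgen G).2 dvd_rfl
  have hXD : IsWeightedHomogeneous (1 : Fin 3 → ℕ) (X 0 ^ D : MvPolynomial (Fin 3) k) D :=
    isHomogeneous_X_pow 0 D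
  have hf0 : aeval c u = 0 → f ∈ SS (k := k) c r := by
    intro h0
    rw [h0] at hu3
    have h5 := (mul_eq_zero.1 hu3).resolve_left (hc0 D)
    rw [h5]
    exact Submodule.zero_mem _
  rcases lt_or_ge (r + D) 0 with hneg | hpos
  · exact hf0 (by rw [hu2 hneg, map_zero])
  obtain ⟨n, hn⟩ : ∃ n, n = (r + D).toNat := ⟨_, rfl⟩
  rw [← hn] at hu1
  have hcomp : u = weightedHomogeneousComponent (1 : Fin 3 → ℕ) n (X 0 ^ D * u1) +
      weightedHomogeneousComponent (1 : Fin 3 → ℕ) n (G * z) := by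
    rw [← map_add, ← hu4]
    exact (IsWeightedHomogeneous.weightedHomogeneousComponent_same
      (w := (1 : Fin 3 → ℕ)) hu1).symm
  have hGz : aeval c (weightedHomogeneousComponent (1 : Fin 3 → ℕ) n (G * z)) = 0 :=
    (hgen _).2 (dvd_comp (1 : Fin 3 → ℕ) (n := d) hh z n)
  rcases lt_or_ge r 0 with hr | hr
  · apply hf0
    rw [hcomp, map_add, hGz, comp_mul_lt (1 : Fin 3 → ℕ) hXD u1 n (by omega), map_zero, add_zero]
  · have hn2 : n = D + r.toNat := by omega
    rw [hn2, comp_mul (1 : Fin 3 → ℕ) hXD, ← hn2] at hcomp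
    have h5 : aeval c u = aeval c (X 0 ^ D : MvPolynomial (Fin 3) k) *
        aeval c (weightedHomogeneousComponent (1 : Fin 3 → ℕ) r.toNat u1) := by
      rw [hcomp, map_add, hGz, map_mul, add_zero]
    rw [h5] at hu3
    rw [mul_left_cancel₀ (hc0 D) hu3]
    exact SS_mk (n := r.toNat) (by omega)
      (weightedHomogeneousComponent_isWeightedHomogeneous r.toNat u1)

theorem pf_SNG : T_SNG := by
  intro k L _ _ _ _ _ G d c hI hgen f r N hr hf
  obtain ⟨φ, -, h2, h3⟩ := mem_SS (sat k L G d c hI hgen f r N hf)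
  rw [h3, h2 hr, map_zero]

end Pool.Agent.H90.ND
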