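import Pool.Agent.H84.ND.Targets2
import Pool.Agent.H61.SM.Cm

/-!
# Module NLO of board ndc_modules (MP_70ba79_ag): a form which vanishes at a node is locally in the
Jacobian ideal
-/

set_option autoImplicit false

namespace Pool.Agent.H90.ND

open MvPolynomial SC Pool.Agent.H27.LV Pool.Agent.H84.SM Pool.Agent.H84.ND

section NLO

variable {k : Type} [Field k]

theorem pdc (i j : Fin 3) (G : MvPolynomial (Fin 3) k) :
    pderiv i (pderiv j G) = pderiv j (pderiv i G) := by
  have h : ⁅(pderiv i : Derivation k (MvPolynomial (Fin 3) k) (MvPolynomial (Fin 3) k)),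
      (pderiv j : Derivation k (MvPolynomial (Fin 3) k) (MvPolynomial (Fin 3) k))⁆ = 0 := by
    refine MvPolynomial.derivation_ext (R := k) fun l => ?_
    rw [Derivation.commutator_apply, pderiv_X, pderiv_X, Derivation.zero_apply]
    have h1 : ∀ a b : Fin 3, pderiv a (Pi.single (M := fun _ => MvPolynomial (Fin 3) k) b 1 l) =
        0 := by
      intro a b
      by_cases hb : l = b
      · rw [hb, Pi.single_eq_same, Derivation.map_one_eq_zero]
      · rw [Pi.single_eq_of_ne hb, map_zero]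
    rw [h1, h1, sub_zero]
  have h2 := congrArg (fun D => D G) h
  simp only [Derivation.commutator_apply, Derivation.zero_apply] at h2
  exact sub_eq_zero.1 h2

/-- the linear forms which vanish at `s` -/
noncomputable def Ls (s : Fin 3 → k) (j c : Fin 3) : MvPolynomial (Fin 3) k :=
  C (s j) * X c - C (s c) * X j

theorem Ls_self (s : Fin 3 → k) (j : Fin 3) : Ls s j j = 0 := sub_self _

theorem mem_Ls {s : Fin 3 → k} {j : Fin 3} (hj : s j ≠ 0) {n : ℕ} {p : MvPolynomial (Fin 3) k}
    (hp : p.IsHomogeneous n) (h0 : eval s p = 0) : p ∈ Ideal.span (Set.range (Ls s j)) := by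
  have hq : ∀ c, Ideal.Quotient.mkₐ k (Ideal.span (Set.range (Ls s j))) (C (s j) * X c) =
      Ideal.Quotient.mkₐ k (Ideal.span (Set.range (Ls s j))) (C (s c) * X j) := by
    intro c
    rw [← sub_eq_zero, ← map_sub]
    exact Ideal.Quotient.eq_zero_iff_mem.2 (Ideal.subset_span ⟨c, rfl⟩)
  generalize hQ : Ideal.Quotient.mkₐ k (Ideal.span (Set.range (Ls s j))) = q at hq
  have h1 := Pool.Agent.H61.SM.scale (R := k) (1 : Fin 3 → ℕ) (n := n) hp (fun c => q (X c))
    (q (C (s j)))
  have h2 := Pool.Agent.H61.SM.scale (R := k) (1 : Fin 3 → ℕ) (n := n) hp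
    (fun c => algebraMap k _ (s c)) (q (X j))
  have h3 : (fun c => q (C (s j)) ^ (1 : Fin 3 → ℕ) c * q (X c)) =
      fun c => q (X j) ^ (1 : Fin 3 → ℕ) c * algebraMap k _ (s c) := by
    funext c
    have h4 := hq c
    rw [map_mul, map_mul] at h4
    have h5 : q (C (s c)) = algebraMap k _ (s c) := q.commutes (s c)
    show q (C (s j)) ^ 1 * q (X c) = q (X j) ^ 1 * algebraMap k _ (s c)
    rw [pow_one, pow_one, h4, h5, mul_comm]
  rw [h3, h2] at h1
  have h6 : aeval (fun c => algebraMap k _ (s c)) p = algebraMap k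
      (MvPolynomial (Fin 3) k ⧸ Ideal.span (Set.range (Ls s j))) (eval s p) := by
    exact aeval_algebraMap_apply (R := k) (A := k) (B := MvPolynomial (Fin 3) k ⧸
      Ideal.span (Set.range (Ls s j))) s p
  have h7 : aeval (fun c => q (X c)) p = q p := by
    have h8 := comp_aeval_apply (R := k) (X : Fin 3 → MvPolynomial (Fin 3) k) q p
    rw [aeval_X_left_apply] at h8
    exact h8.symm
  rw [h6, h0, map_zero, mul_zero, h7] at h1
  have h9 : IsUnit (q (C (s j)) ^ n) :=
    (((isUnit_iff_ne_zero.2 hj).map (C : k →+* MvPolynomial (Fin 3) k)).map q).pow n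
  have h10 := h9.mul_right_eq_zero.1 h1.symm
  rw [← hQ] at h10
  exact Ideal.Quotient.eq_zero_iff_mem.1 h10

theorem sum_j {M : Type} [AddCommMonoid M] (F : Fin 3 → M) (j : Fin 3) :
    ∑ i, F i = F j + F (j + 1) + F (j + 2) := by
  rw [Fin.sum_univ_three]
  fin_cases j
  · rfl
  · show F 0 + F 1 + F 2 = F 1 + F 2 + F 0
    rw [add_assoc, add_comm (F 0)]
  · show F 0 + F 1 + F 2 = F 2 + F 0 + F 1
    rw [add_comm, add_assoc]

theorem ne_j1 (j : Fin 3) : j + 1 ≠ j := by fin_cases j <;> decide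

theorem ne_j2 (j : Fin 3) : j + 2 ≠ j := by fin_cases j <;> decide

theorem ne_j12 (j : Fin 3) : j + 1 ≠ j + 2 := by fin_cases j <;> decide

theorem exists_ab {s : Fin 3 → k} {j : Fin 3} (hj : s j ≠ 0) {n : ℕ} {p : MvPolynomial (Fin 3) k}
    (hp : p.IsHomogeneous n) (h0 : eval s p = 0) :
    ∃ a b : MvPolynomial (Fin 3) k, p = a * Ls s j (j + 1) + b * Ls s j (j + 2) := by
  obtain ⟨c, hc⟩ := Ideal.mem_span_range_iff_exists_fun.1 (mem_Ls hj hp h0)
  refine ⟨c (j + 1), c (j + 2), ?_⟩
  rw [sum_j _ j, Ls_self, mul_zero, zero_add] at hc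
  exact hc.symm

theorem pd_Ls_same {s : Fin 3 → k} {j c : Fin 3} (hc : c ≠ j) :
    pderiv c (Ls s j c) = C (s j) := by
  rw [Ls, map_sub, pderiv_C_mul, pderiv_C_mul, pderiv_X_self, pderiv_X_of_ne hc.symm, mul_zero,
    sub_zero, mul_one]

theorem pd_Ls_ne {s : Fin 3 → k} {j c m : Fin 3} (hc : m ≠ j) (hm : m ≠ c) :
    pderiv m (Ls s j c) = 0 := by
  rw [Ls, map_sub, pderiv_C_mul, pderiv_C_mul, pderiv_X_of_ne hm.symm, pderiv_X_of_ne hc.symm,
    mul_zero, mul_zero, sub_zero]

theorem ev_Ls (s : Fin 3 → k) (j c : Fin 3) : eval s (Ls s j c) = 0 := by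
  rw [Ls, map_sub, map_mul, map_mul, eval_C, eval_C, eval_X, eval_X, mul_comm, sub_self]

end NLO

theorem pf_NLO : T_NLO := by
  intro k _ _ _ G d hd hG s hN r f hf hfs
  obtain ⟨j, hj⟩ : ∃ j, s j ≠ 0 := by
    by_contra h
    push Not at h
    exact hN.sing.1 (funext h)
  choose a b hab using fun i => exists_ab hj (hG.pderiv (i := i)) (hN.sing.2 i)
  have hA : ∀ i, eval s (pderiv (j + 1) (pderiv i G)) = s j * eval s (a i) := by
    intro i
    rw [hab i, map_add, Derivation.leibniz, Derivation.leibniz, pd_Ls_same (ne_j1 j),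
      pd_Ls_ne (ne_j1 j) (ne_j12 j), smul_eq_mul, smul_eq_mul, smul_eq_mul, smul_eq_mul, map_add,
      map_add, map_add, map_mul, map_mul, map_mul, map_mul, ev_Ls, ev_Ls, eval_C, map_zero]
    ring
  have hB : ∀ i, eval s (pderiv (j + 2) (pderiv i G)) = s j * eval s (b i) := by
    intro i
    rw [hab i, map_add, Derivation.leibniz, Derivation.leibniz, pd_Ls_same (ne_j2 j),
      pd_Ls_ne (ne_j2 j) (ne_j12 j).symm, smul_eq_mul, smul_eq_mul, smul_eq_mul, smul_eq_mul,
      map_add, map_add, map_add, map_mul, map_mul, map_mul, map_mul, ev_Ls, ev_Ls, eval_C, map_zero]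
    ring
  have hker : ∀ y1 y2 : k, (∀ i, eval s (a i) * y1 + eval s (b i) * y2 = 0) → y1 = 0 ∧ y2 = 0 := by
    intro y1 y2 hy
    obtain ⟨c, hc⟩ := hN.ker (fun i => if i = j + 1 then y1 else if i = j + 2 then y2 else 0) (by
      intro i
      rw [sum_j _ j]
      simp only [if_neg (ne_j1 j).symm, if_neg (ne_j2 j).symm, if_pos, if_neg (ne_j12 j).symm,
        mul_zero, zero_add]
      rw [pdc i (j + 1), pdc i (j + 2), hA, hB]
      linear_combination s j * hy i)
    have h1 := congrFun hc j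
    simp only [if_neg (ne_j1 j).symm, if_neg (ne_j2 j).symm, Pi.smul_apply, smul_eq_mul] at h1
    have h2 : c = 0 := (mul_eq_zero.1 h1.symm).resolve_right hj
    have h3 := congrFun hc (j + 1)
    have h4 := congrFun hc (j + 2)
    simp only [if_pos, Pi.smul_apply, smul_eq_mul, h2, zero_mul] at h3
    simp only [if_neg (ne_j12 j).symm, if_pos, Pi.smul_apply, smul_eq_mul, h2, zero_mul] at h4
    exact ⟨h3, h4⟩
  have hD : ∃ i i', eval s (a i * b i' - b i * a i') ≠ 0 := by
    by_contra hcon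
    push Not at hcon
    have h1 : ∀ i i', eval s (a i) * eval s (b i') - eval s (b i) * eval s (a i') = 0 := by
      intro i i'
      have h2 := hcon i i'
      rwa [map_sub, map_mul, map_mul] at h2
    have h3 : ∀ i', eval s (b i') = 0 ∧ - eval s (a i') = 0 := by
      intro i'
      exact hker _ _ fun i => by linear_combination h1 i i'
    have h4 := hker 1 0 fun i => by
      rw [mul_zero, add_zero, mul_one]
      exact neg_eq_zero.1 (h3 i).2
    exact one_ne_zero h4.1
  obtain ⟨i, i', hii⟩ := hD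
  refine ⟨_, hii, ?_⟩
  obtain ⟨u, v, huv⟩ := exists_ab hj hf hfs
  have h5 : (a i * b i' - b i * a i') * f =
      (u * b i' - v * a i') * pderiv i G + (v * a i - u * b i) * pderiv i' G := by
    rw [huv, hab i, hab i']
    ring
  rw [h5]
  exact Ideal.add_mem _ (Ideal.mul_mem_left _ _ (Ideal.subset_span ⟨i, rfl⟩))
    (Ideal.mul_mem_left _ _ (Ideal.subset_span ⟨i', rfl⟩))

end Pool.Agent.H90.ND
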