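import Pool.Agent.H76.ND.Targets2

/-!
# Modules TCH and PDT of board nd2_modules (MP_57ddd5_pr, part D)
-/

open MeasureTheory ProbabilityTheory
open scoped ENNReal

namespace Pool.Agent.H90.ND

open Pool.Agent.H99.NS Pool.Agent.H22.LPP Pool.Agent.H95.INS Pool.Agent.H76.ND
open Pool.Agent.H97.NF (tile)

theorem lv_succ (b : ℕ) : lv (b + 1) = 32 * 64 ^ b := by simp [lv]

theorem pow_mono64 {a b : ℕ} (h : a ≤ b) : (64 : ℤ) ^ a ≤ 64 ^ b :=
  pow_le_pow_right₀ (by norm_num) h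

theorem ep_eN (n : ℕ) : EP (0, 0) (eN n) (2 * n) := by
  refine ⟨?_, ?_, ?_, ?_⟩
  · simp [eN]
  · have : dx (0, 0) (eN n) = 0 := by simp [dx, eN]
    rw [this, abs_zero]
    positivity
  · refine ⟨by simp [eN], ?_⟩
    simp [eN]
  · simp

theorem near_geod {n : ℕ} {ω : Env} {g : ℤ → ℤ} (h : Near ω (0, 0) (eN n) 0 g) :
    Geod ω (0, 0) (eN n) g := by
  refine ⟨h.1, le_antisymm ?_ ?_⟩
  · exact le_T ω (by simp [eN]) h.1
  · have := h.2
    linarith

/-- Common bound of the constants. -/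
theorem consts {C c s : ℝ} (hC : 0 < C) (hc : 0 < c) (hs : 0 < s) {N : ℕ} (hN : 1 ≤ N) {y : ℝ}
    (hy : 0 ≤ y) :
    C * Real.exp (-(c * (y / 32) ^ s)) + C * Real.exp (-(N : ℝ) ^ c) ≤
      max C 1 * Real.exp (-(N : ℝ) ^ min c (c * (1 / 32) ^ s)) +
        max C 1 * Real.exp (-(min c (c * (1 / 32) ^ s) * y ^ s)) := by
  have hN' : (1 : ℝ) ≤ (N : ℝ) := by exact_mod_cast hN
  have h1 : Real.exp (-(N : ℝ) ^ c) ≤ Real.exp (-(N : ℝ) ^ min c (c * (1 / 32) ^ s)) := by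
    apply Real.exp_le_exp.2
    apply neg_le_neg
    exact Real.rpow_le_rpow_of_exponent_le hN' (min_le_left _ _)
  have h2 : Real.exp (-(c * (y / 32) ^ s)) ≤
      Real.exp (-(min c (c * (1 / 32) ^ s) * y ^ s)) := by
    apply Real.exp_le_exp.2
    apply neg_le_neg
    have : (y / 32) ^ s = (1 / 32) ^ s * y ^ s := by
      rw [← Real.mul_rpow (by norm_num) hy]
      congr 1
      ring
    rw [this, ← mul_assoc]
    exact mul_le_mul_of_nonneg_right (min_le_right _ _) (Real.rpow_nonneg hy _)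
  have hC1 : C ≤ max C 1 := le_max_left _ _
  have hC0 : 0 ≤ max C 1 := le_trans hC.le hC1
  have h3 := mul_le_mul hC1 h1 (Real.exp_pos _).le hC0
  have h4 := mul_le_mul hC1 h2 (Real.exp_pos _).le hC0
  linarith

theorem cpos {c s : ℝ} (hc : 0 < c) : 0 < min c (c * (1 / 32) ^ s) :=
  lt_min hc (mul_pos hc (Real.rpow_pos_of_pos (by norm_num) _))

theorem pf_TCH (h_TFL : T_TFL) : T_TCH := by
  intro q c0 hq0 hq1 hc0 hc01 hLT hIN
  obtain ⟨C, c, s, N0, hC, hc, hs, H⟩ := h_TFL q c0 hq0 hq1 hc0 hc01 hLT hIN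
  refine ⟨max C 1, min c (c * (1 / 32) ^ s), s, max N0 1, ?_, cpos hc, hs, ?_⟩
  · exact lt_of_lt_of_le hC (le_max_left _ _)
  intro n a b z hn hna hab hmin
  have hn1 : 1 ≤ n := le_trans (le_max_right _ _) hn
  have hnN : N0 ≤ 2 * n := by
    have := le_trans (le_max_left N0 1) hn
    omega
  set y : ℝ := |(z.2 : ℝ)| * 16 ^ a / 16 ^ b with hy
  have hy0 : 0 ≤ y := by positivity
  by_cases hz : z.2 = 0
  · have hyz : y = 0 := by rw [hy, hz]; simp
    rw [hyz, Real.zero_rpow hs.ne', mul_zero, neg_zero, Real.exp_zero, mul_one]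
    refine le_trans prob_le_one ?_
    rw [← ENNReal.ofReal_one]
    apply ENNReal.ofReal_le_ofReal
    have h1 : (1 : ℝ) ≤ max C 1 := le_max_right _ _
    have h2 : 0 ≤ max C 1 * Real.exp (-((2 * n : ℕ) : ℝ) ^ min c (c * (1 / 32) ^ s)) :=
      mul_nonneg (by linarith) (Real.exp_pos _).le
    linarith
  · have hz1 : 1 ≤ |z.2| := Int.one_le_abs hz
    have hbN : ((2 * n : ℕ) : ℝ) ^ c0 ≤ 64 ^ (b + 1) :=
      le_trans hna (pow_le_pow_right₀ (by norm_num) (by omega))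
    obtain ⟨E1, E2⟩ := H (2 * n) (0, 0) (eN n) (b + 1) hnN (ep_eN n) hbN (y / 32) (by positivity)
    have hx : y / 32 * 16 ^ (b + 1) = |(z.2 : ℝ)| * 16 ^ a / 2 := by
      rw [hy, pow_succ]
      field_simp
      ring
    have hpos : ∀ v : ℤ, (2 * z.2 - 1) * 16 ^ a ≤ 2 * v → 2 * v < (2 * z.2 + 1) * 16 ^ a →
        y / 32 * 16 ^ (b + 1) ≤ |(v : ℝ)| := by
      intro v h1 h2
      rw [hx]
      have h3 : |z.2| * 16 ^ a ≤ 2 * |v| := by
        have hp : (0 : ℤ) < 16 ^ a := by positivity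
        rcases abs_cases z.2 with ⟨e1, e2⟩ | ⟨e1, e2⟩ <;> rcases abs_cases v with ⟨f1, f2⟩ | ⟨f1, f2⟩
        · rw [e1, f1]; nlinarith
        · rw [e1, f1]; nlinarith
        · rw [e1, f1]; nlinarith
        · rw [e1, f1]; nlinarith
      have h4 : ((|z.2| * 16 ^ a : ℤ) : ℝ) ≤ ((2 * |v| : ℤ) : ℝ) := by exact_mod_cast h3
      push_cast at h4
      linarith
    have h64 : (64 : ℤ) ^ a ≤ 64 ^ b := pow_mono64 hab
    have hb0 : (0 : ℤ) < 64 ^ b := by positivity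
    have hl1 : lv (b + 1) = 32 * 64 ^ b := lv_succ b
    have hl2 : lv (b + 1 + 1) = 32 * 64 ^ b * 64 := by rw [lv_succ, pow_succ]; ring
    refine le_trans ?_ (ENNReal.ofReal_le_ofReal (consts hC hc hs (by omega : 1 ≤ 2 * n) hy0))
    rcases min_lt_iff.1 hmin with hA | hB
    · refine le_trans (measure_mono ?_) E1
      rintro ω ⟨g, r, hg, hr0, hr1, ht1, ht2, ht3, ht4⟩
      refine ⟨g, r, near_geod hg, hr0.le, by simpa [eN] using hr1, ?_, ?_⟩
      · simp only at ht2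
        rw [hl2]
        rw [hl1] at hA
        simp only [zero_add]
        nlinarith
      · have := hpos (g r) ht3 ht4
        simpa using this
    · refine le_trans (measure_mono ?_) E2
      rintro ω ⟨g, r, hg, hr0, hr1, ht1, ht2, ht3, ht4⟩
      refine ⟨g, r, near_geod hg, hr0.le, by simpa [eN] using hr1, ?_, ?_⟩
      · simp only at ht1
        rw [hl2]
        rw [hl1] at hB
        simp only [eN]
        nlinarith
      · have := hpos (g r) ht3 ht4
        simpa [eN] using this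

theorem pf_PDT (h_TFL : T_TFL) : T_PDT := by
  intro q c0 hq0 hq1 hc0 hc01 hLT hIN
  obtain ⟨C, c, s, N0, hC, hc, hs, H⟩ := h_TFL q c0 hq0 hq1 hc0 hc01 hLT hIN
  refine ⟨max C 1, min c (c * (1 / 32) ^ s), s, max N0 1, ?_, cpos hc, hs, ?_⟩
  · exact lt_of_lt_of_le hC (le_max_left _ _)
  intro n a I z y hn hna haI hz1 hz2 hmin hy0
  have hn1 : 1 ≤ n := le_trans (le_max_right _ _) hn
  have hnN : N0 ≤ 2 * n := by
    have := le_trans (le_max_left N0 1) hn
    omega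
  have hbN : ((2 * n : ℕ) : ℝ) ^ c0 ≤ 64 ^ (I + 2) :=
    le_trans hna (pow_le_pow_right₀ (by norm_num) (by omega))
  obtain ⟨E1, E2⟩ := H (2 * n) (0, 0) (eN n) (I + 2) hnN (ep_eN n) hbN (y / 32) (by positivity)
  have hx : y / 32 * 16 ^ (I + 2) = y * 16 ^ (I + 1) / 2 := by
    rw [pow_succ (16 : ℝ) (I + 1)]
    ring
  have hl1 : lv (I + 1) = 32 * 64 ^ I := lv_succ I
  have hl2 : lv (I + 2) = 32 * 64 ^ I * 64 := by
    rw [show I + 2 = (I + 1) + 1 by rfl, lv_succ, pow_succ]; ring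
  have hl3 : lv (I + 2 + 1) = 32 * 64 ^ I * 64 * 64 := by
    rw [lv_succ, pow_succ, pow_succ]; ring
  have hI0 : (0 : ℤ) < 64 ^ I := by positivity
  have hla : lv a ≤ lv (I + 1) := by
    rw [hl1]
    unfold lv
    have := pow_mono64 (a := a - 1) (b := I) (by omega)
    linarith
  refine le_trans ?_ (ENNReal.ofReal_le_ofReal (consts hC hc hs (by omega : 1 ≤ 2 * n) hy0))
  -- the position
  have key : ∀ (g : ℤ → ℤ) (t1 : ℤ), -lv a ≤ t1 → t1 ≤ lv a → y ≤ Dt I t1 (sh a z g) →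
      ∃ r : ℤ, 64 ^ a * z.1 - lv (I + 1) ≤ r ∧ r ≤ 64 ^ a * z.1 + lv (I + 1) ∧
        y / 32 * 16 ^ (I + 2) ≤ |(g r : ℝ)| := by
    intro g t1 h1 h2 h3
    have hp : (0 : ℝ) < 16 ^ (I + 1) := by positivity
    unfold Dt at h3
    rw [le_div_iff₀ hp] at h3
    have two : ∀ p r : ℤ, y * 16 ^ (I + 1) ≤ |((sh a z g p - sh a z g r : ℤ) : ℝ)| →
        y / 32 * 16 ^ (I + 2) ≤ |(g (p + 64 ^ a * z.1) : ℝ)| ∨
        y / 32 * 16 ^ (I + 2) ≤ |(g (r + 64 ^ a * z.1) : ℝ)| := by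
      intro p r hpr
      rw [hx]
      by_contra hcon
      push Not at hcon
      have e : ((sh a z g p - sh a z g r : ℤ) : ℝ) =
          (g (p + 64 ^ a * z.1) : ℝ) - (g (r + 64 ^ a * z.1) : ℝ) := by
        simp only [sh, cen]
        push_cast
        ring
      rw [e] at hpr
      have := abs_sub (g (p + 64 ^ a * z.1) : ℝ) (g (r + 64 ^ a * z.1) : ℝ)
      linarith [hcon.1, hcon.2]
    rcases le_max_iff.1 h3 with h | h
    · rcases two _ _ h with h' | h'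
      · exact ⟨-lv (I + 1) + 64 ^ a * z.1, by omega, by omega, h'⟩
      · exact ⟨t1 + 64 ^ a * z.1, by omega, by omega, h'⟩
    · rcases two _ _ h with h' | h'
      · exact ⟨lv (I + 1) + 64 ^ a * z.1, by omega, by omega, h'⟩
      · exact ⟨t1 + 64 ^ a * z.1, by omega, by omega, h'⟩
  rcases min_lt_iff.1 hmin with hA | hB
  · refine le_trans (measure_mono ?_) E1
    rintro ω ⟨g, hg, t1, ht1, ht2, hD⟩
    obtain ⟨r, hr1, hr2, hr3⟩ := key g t1 ht1 ht2 hD
    refine ⟨g, r, near_geod hg, by simp only; omega, ?_, ?_, by simpa using hr3⟩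
    · simp only [eN]; omega
    · simp only [zero_add]
      rw [hl3]
      rw [hl1] at hr2
      rw [hl2] at hA
      nlinarith
  · refine le_trans (measure_mono ?_) E2
    rintro ω ⟨g, hg, t1, ht1, ht2, hD⟩
    obtain ⟨r, hr1, hr2, hr3⟩ := key g t1 ht1 ht2 hD
    refine ⟨g, r, near_geod hg, by simp only; omega, ?_, ?_, by simpa [eN] using hr3⟩
    · simp only [eN]; omega
    · simp only [eN]
      rw [hl3]
      rw [hl1] at hr1
      rw [hl2] at hB
      nlinarith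

end Pool.Agent.H90.ND
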